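import Pool.Agent.Lib.MP_b9f640_co.Final

namespace Pool.Agent.Results.MP_b9f640_co.InfinitelyMany

open Pool.Agent.Lib.MP_b9f640_co

/-- The graphs `GP(6m + 10, 2)`, for `m = 0, 1, 2, ...`, are cubic and Hamiltonian, have Hamiltonian
extension number exactly five, and are pairwise non-isomorphic. -/
theorem result :
    (∀ m : ℕ, (∀ v, ((GP (6 * m + 10)).neighborSet v).ncard = 3) ∧
      (GP (6 * m + 10)).IsHamiltonian ∧ HasExtensionNumber (GP (6 * m + 10)) 5) ∧
    ∀ m m' : ℕ, m ≠ m' → IsEmpty (GP (6 * m + 10) ≃g GP (6 * m' + 10)) :=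
  ⟨fun m => ⟨cubic (by omega), hamiltonian m, main m⟩, not_iso⟩

end Pool.Agent.Results.MP_b9f640_co.InfinitelyMany
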